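import Mathlib
set_option autoImplicit false

/-!
# A subfield of the reals with only archimedean orderings and a non-Borel definable set

There is a subfield `K` of `ℝ` in which every nonnegative number is a square (so that `K` has
exactly one field ordering, and this ordering is archimedean) such that the set of the cubes of
`K` is not a Borel subset of `K`.

The proof. Let `α i` (`i ∈ I`) be a transcendence basis of `ℝ` over `ℚ`; the set `I` has the
cardinality of the continuum. For `A ⊆ I` let `K_A` be a maximal subfield of `ℝ` which contains all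
`α i ^ 3` and all `α i` with `i ∈ A`, but no `α i` with `i ∉ A`. If `d ≥ 0` is in `K_A` and
`s = √ d` is not, then the field `K_A (s)` contains some `α i = u + v s`, `i ∉ A`, and as
`α i ^ 3 ∈ K_A` one gets `v (3 u ^ 2 + v ^ 2 d) = 0`, so `v = 0`, a contradiction. Therefore the
nonnegative elements of `K_A` are squares. The number `α i ^ 3` is a cube in `K_A` iff `i ∈ A`.
If the set of the cubes of `K_A` is `B_A ∩ K_A` with a Borel set `B_A` of real numbers, then
`A = {i | α i ^ 3 ∈ B_A}`. There are more sets `A` than Borel sets, so this is not true for all `A`.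
-/

open Cardinal Polynomial
open scoped IntermediateField.algebraAdjoinAdjoin

namespace Pool.Agent.Results.MP_37207a_lc.EuclideanCubes

/-- Every field ordering of `K` is archimedean. -/
def OnlyArchimedeanOrderings (K : Type) [Field K] : Prop :=
  ∀ [LinearOrder K] [IsStrictOrderedRing K], Archimedean K

/-! ### The orderings -/

theorem only_arch {K : Type} [Field K] (f : K →+* ℝ)
    (hsq : ∀ x : K, 0 ≤ f x → ∃ y : K, x = y * y) : OnlyArchimedeanOrderings K := by
  intro _ _
  have h0 : ∀ x y : K, f x ≤ f y → x ≤ y := by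
    intro x y h
    obtain ⟨z, hz⟩ := hsq (y - x) (by rw [map_sub]; linarith)
    have : 0 ≤ z * z := mul_self_nonneg z
    rw [← hz] at this
    linarith [sub_nonneg.1 this]
  refine ⟨fun x y hy => ?_⟩
  have hy' : 0 < f y := by
    by_contra h
    have := h0 y 0 (by rw [map_zero]; exact not_lt.1 h)
    exact absurd hy (not_lt.2 this)
  obtain ⟨n, hn⟩ := Archimedean.arch (f x) hy'
  exact ⟨n, h0 _ _ (by rw [map_nsmul]; exact hn)⟩

/-! ### Adjoining a square root -/

/-- the field `K (s)`, `s ^ 2 = d ∈ K` -/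
def adj (K : Subfield ℝ) (s : ℝ) (hs : s * s ∈ K) : Subfield ℝ where
  carrier := {x | ∃ u ∈ K, ∃ v ∈ K, x = u + v * s}
  mul_mem' := by
    rintro _ _ ⟨u, hu, v, hv, rfl⟩ ⟨u', hu', v', hv', rfl⟩
    exact ⟨u * u' + v * v' * (s * s), K.add_mem (K.mul_mem hu hu') (K.mul_mem (K.mul_mem hv hv') hs),
      u * v' + v * u', K.add_mem (K.mul_mem hu hv') (K.mul_mem hv hu'), by ring⟩
  one_mem' := ⟨1, K.one_mem, 0, K.zero_mem, by ring⟩
  add_mem' := by
    rintro _ _ ⟨u, hu, v, hv, rfl⟩ ⟨u', hu', v', hv', rfl⟩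
    exact ⟨u + u', K.add_mem hu hu', v + v', K.add_mem hv hv', by ring⟩
  zero_mem' := ⟨0, K.zero_mem, 0, K.zero_mem, by ring⟩
  neg_mem' := by
    rintro _ ⟨u, hu, v, hv, rfl⟩
    exact ⟨-u, K.neg_mem hu, -v, K.neg_mem hv, by ring⟩
  inv_mem' := by
    rintro _ ⟨u, hu, v, hv, rfl⟩
    by_cases h : u * u - v * v * (s * s) = 0
    · by_cases h1 : u + v * s = 0
      · exact ⟨0, K.zero_mem, 0, K.zero_mem, by rw [h1]; simp⟩
      · -- then `u = v s`
        have h2 : (u + v * s) * (u - v * s) = 0 := by rw [← h]; ring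
        have h3 : u = v * s := by
          rcases mul_eq_zero.1 h2 with h4 | h4
          · exact absurd h4 h1
          · linarith
        have h5 : u ≠ 0 := by
          rintro rfl
          exact h1 (by rw [← h3]; ring)
        refine ⟨(2 * u)⁻¹, K.inv_mem (K.mul_mem (by
          have := K.add_mem K.one_mem K.one_mem
          rwa [one_add_one_eq_two] at this) hu), 0, K.zero_mem, ?_⟩
        rw [← h3]
        ring
    · refine ⟨u / (u * u - v * v * (s * s)), K.div_mem hu (K.sub_mem (K.mul_mem hu hu)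
        (K.mul_mem (K.mul_mem hv hv) hs)), -v / (u * u - v * v * (s * s)),
        K.div_mem (K.neg_mem hv) (K.sub_mem (K.mul_mem hu hu)
        (K.mul_mem (K.mul_mem hv hv) hs)), ?_⟩
      have h1 : u + v * s ≠ 0 := by
        intro h1
        apply h
        have : (u + v * s) * (u - v * s) = 0 := by rw [h1, zero_mul]
        rw [← this]
        ring
      have h2 : (u + v * s)⁻¹ = (u - v * s) / (u * u - v * v * (s * s)) := by
        rw [eq_div_iff h, inv_mul_eq_iff_eq_mul₀ h1]
        ring
      rw [h2]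
      ring

theorem le_adj (K : Subfield ℝ) (s : ℝ) (hs : s * s ∈ K) : K ≤ adj K s hs :=
  fun x hx => ⟨x, hx, 0, K.zero_mem, by ring⟩

theorem mem_adj (K : Subfield ℝ) (s : ℝ) (hs : s * s ∈ K) : s ∈ adj K s hs :=
  ⟨0, K.zero_mem, 1, K.one_mem, by ring⟩

/-! ### The field `K_A` -/

section fields

variable {I : Type} (α : I → ℝ)

/-- the generators -/
def gens (A : Set I) : Set ℝ := (α '' A) ∪ Set.range fun i => α i ^ 3

theorem not_mem (hα : AlgebraicIndependent ℚ α) (A : Set I) (j : I) (hj : j ∉ A) :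
    α j ∉ Subfield.closure (gens α A) := by
  intro h
  -- `L` is the field generated by the other elements
  let L : IntermediateField ℚ ℝ := IntermediateField.adjoin ℚ (α '' {j}ᶜ)
  have ht0 : Transcendental (Algebra.adjoin ℚ (α '' {j}ᶜ)) (α j) :=
    hα.transcendental_adjoin (by simp)
  have ht : Transcendental L (α j) := by
    intro h1
    exact ht0 ((IsFractionRing.isAlgebraic_iff (Algebra.adjoin ℚ (α '' {j}ᶜ)) L ℝ).2 h1)
  have h1 : (α j) ∈ IntermediateField.adjoin L {α j ^ 3} := by
    have h2 : Subfield.closure (gens α A) ≤ (IntermediateField.adjoin L {α j ^ 3}).toSubfield := by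
      rw [Subfield.closure_le]
      have h3 : ∀ i, i ≠ j → α i ∈ (IntermediateField.adjoin L {α j ^ 3}) := by
        intro i hi
        have : α i ∈ L := IntermediateField.subset_adjoin _ _ ⟨i, hi, rfl⟩
        exact (IntermediateField.adjoin L {α j ^ 3}).algebraMap_mem ⟨α i, this⟩
      rintro x (⟨i, hi, rfl⟩ | ⟨i, rfl⟩)
      · exact h3 i (fun hij => hj (hij ▸ hi))
      · by_cases hij : i = j
        · subst hij
          exact IntermediateField.subset_adjoin _ _ rfl
        · exact pow_mem (h3 i hij) 3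
    exact h2 h
  rw [IntermediateField.mem_adjoin_simple_iff] at h1
  obtain ⟨r, s, hrs⟩ := h1
  have hne : α j ≠ 0 := by
    rintro h0
    exact ht (h0 ▸ isAlgebraic_zero)
  have hs0 : aeval (α j ^ 3) s ≠ 0 := by
    intro h0
    rw [h0, div_zero] at hrs
    exact hne hrs
  have h4 : aeval (α j) (X * expand L 3 s - expand L 3 r) = 0 := by
    rw [map_sub, map_mul, aeval_X, expand_aeval, expand_aeval]
    rw [eq_div_iff hs0] at hrs
    rw [hrs, sub_self]
  have h5 : X * expand L 3 s - expand L 3 r = 0 := by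
    by_contra h6
    exact ht ⟨_, h6, h4⟩
  have h6 : s = 0 := by
    ext n
    have h7 := congrArg (fun p => coeff p (3 * n + 1)) h5
    simp only [coeff_sub, coeff_X_mul, coeff_zero] at h7
    rw [coeff_expand (by norm_num), coeff_expand (by norm_num)] at h7
    rw [if_pos (Dvd.intro _ rfl), if_neg (by omega)] at h7
    rw [Nat.mul_div_cancel_left _ (by norm_num)] at h7
    simpa using h7
  apply hs0
  rw [h6, map_zero]

theorem exists_field (hα : AlgebraicIndependent ℚ α) (A : Set I) :
    ∃ K : Subfield ℝ, (∀ x ∈ K, 0 ≤ x → ∃ y ∈ K, x = y * y) ∧ (∀ i, α i ^ 3 ∈ K) ∧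
      ∀ i, α i ∈ K ↔ i ∈ A := by
  let S : Set (Subfield ℝ) := {K | Subfield.closure (gens α A) ≤ K ∧ ∀ j, j ∉ A → α j ∉ K}
  have h0 : Subfield.closure (gens α A) ∈ S := ⟨le_rfl, fun j hj => not_mem α hα A j hj⟩
  obtain ⟨K, hK1, hK2⟩ := zorn_le_nonempty₀ S (fun c hc hchain y hy => by
    refine ⟨sSup c, ⟨(hc hy).1.trans (le_sSup hy), fun j hj hmem => ?_⟩, fun z hz => le_sSup hz⟩
    rw [Subfield.mem_sSup_of_directedOn ⟨y, hy⟩ hchain.directedOn] at hmem
    obtain ⟨z, hz, hz'⟩ := hmem
    exact (hc hz).2 j hj hz') _ h0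
  have hS : K ∈ S := hK2.prop
  have hcube : ∀ i, α i ^ 3 ∈ K := fun i => hS.1 (Subfield.subset_closure (Or.inr ⟨i, rfl⟩))
  refine ⟨K, ?_, hcube, fun i => ⟨fun h => ?_, fun h => ?_⟩⟩
  · intro d hd hd0
    by_contra hcon
    have hss : Real.sqrt d * Real.sqrt d = d := Real.mul_self_sqrt hd0
    have hs : Real.sqrt d ∉ K := fun h => hcon ⟨_, h, hss.symm⟩
    have hsK : Real.sqrt d * Real.sqrt d ∈ K := by rw [hss]; exact hd
    have hdpos : 0 < d := by
      rcases hd0.lt_or_eq with h | h
      · exact h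
      · exfalso
        apply hs
        rw [← h, Real.sqrt_zero]
        exact K.zero_mem
    have h1 : adj K (Real.sqrt d) hsK ∉ S := by
      intro h
      exact hs (hK2.le_of_ge h (le_adj K _ hsK) (mem_adj K _ hsK))
    have h2 : ∃ j, j ∉ A ∧ α j ∈ adj K (Real.sqrt d) hsK := by
      by_contra h3
      push Not at h3
      exact h1 ⟨hS.1.trans (le_adj K _ hsK), h3⟩
    obtain ⟨j, hj, u, hu, v, hv, huv⟩ := h2
    have h3 : (3 * u ^ 2 * v + v ^ 3 * d) * Real.sqrt d = α j ^ 3 - (u ^ 3 + 3 * u * v ^ 2 * d) := by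
      rw [huv]
      have : Real.sqrt d ^ 2 = d := by rw [sq, hss]
      have h3' : Real.sqrt d ^ 3 = d * Real.sqrt d := by rw [pow_succ, this]
      ring_nf
      rw [this, h3']
      ring
    have h3K : (3 : ℝ) ∈ K := by
      have := natCast_mem K 3
      exact_mod_cast this
    have h4 : α j ^ 3 - (u ^ 3 + 3 * u * v ^ 2 * d) ∈ K :=
      K.sub_mem (hcube j) (K.add_mem (pow_mem hu 3)
        (K.mul_mem (K.mul_mem (K.mul_mem h3K hu) (pow_mem hv 2)) hd))
    have h5 : 3 * u ^ 2 * v + v ^ 3 * d ∈ K :=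
      K.add_mem (K.mul_mem (K.mul_mem h3K (pow_mem hu 2)) hv) (K.mul_mem (pow_mem hv 3) hd)
    have h6 : 3 * u ^ 2 * v + v ^ 3 * d = 0 := by
      by_contra h7
      apply hs
      have : Real.sqrt d = (α j ^ 3 - (u ^ 3 + 3 * u * v ^ 2 * d)) / (3 * u ^ 2 * v + v ^ 3 * d) := by
        rw [eq_div_iff h7, mul_comm]
        exact h3
      rw [this]
      exact K.div_mem h4 h5
    have h7 : v = 0 := by
      have h8 : v * (3 * u ^ 2 + v ^ 2 * d) = 0 := by rw [← h6]; ring
      rcases mul_eq_zero.1 h8 with h9 | h9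
      · exact h9
      · by_contra hv0
        have : 0 < v ^ 2 * d := by positivity
        have : 0 ≤ 3 * u ^ 2 := by positivity
        linarith
    rw [h7, zero_mul, add_zero] at huv
    exact hS.2 j hj (huv ▸ hu)
  · by_contra h1
    exact hS.2 i h1 h
  · exact hS.1 (Subfield.subset_closure (Or.inl ⟨i, h, rfl⟩))

end fields

theorem exists_basis : ∃ (I : Type) (α : I → ℝ), AlgebraicIndependent ℚ α ∧ 𝔠 ≤ #I := by
  obtain ⟨I, α, hα⟩ := exists_isTranscendenceBasis' ℚ ℝ
  refine ⟨I, α, hα.1, ?_⟩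
  by_contra hlt
  rw [not_le] at hlt
  have : Algebra.IsAlgebraic (Algebra.adjoin ℚ (Set.range α)) ℝ := hα.isAlgebraic
  have h1 : #ℝ ≤ max #(Algebra.adjoin ℚ (Set.range α)) ℵ₀ :=
    Algebra.IsAlgebraic.cardinalMk_le_max _ _
  have h2 : #(Algebra.adjoin ℚ (Set.range α)) = #(MvPolynomial I ℚ) :=
    (Cardinal.mk_congr hα.1.aevalEquiv.toEquiv).symm
  have h3 : #(MvPolynomial I ℚ) ≤ max (max #ℚ #I) ℵ₀ := MvPolynomial.cardinalMk_le_max
  rw [h2, Cardinal.mk_real] at h1
  have h4 : max (max #ℚ #I) ℵ₀ < 𝔠 := by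
    refine max_lt (max_lt ?_ hlt) aleph0_lt_continuum
    rw [Cardinal.mkRat]
    exact aleph0_lt_continuum
  have h5 : max #(MvPolynomial I ℚ) ℵ₀ < 𝔠 :=
    max_lt (h3.trans_lt h4) aleph0_lt_continuum
  exact absurd h1 (not_le.2 h5)

theorem card_measurable : #{B : Set ℝ // MeasurableSet B} ≤ 𝔠 := by
  have h1 : #↑{t : Set ℝ | @MeasurableSet ℝ (MeasurableSpace.generateFrom
      (⋃ (a : ℚ) (b : ℚ) (_ : a < b), {Set.Ioo (a : ℝ) b})) t} ≤ 𝔠 := by
    refine MeasurableSpace.cardinal_measurableSet_le_continuum ?_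
    refine (Set.Countable.le_aleph0 ?_).trans aleph0_le_continuum
    exact Set.countable_iUnion fun a => Set.countable_iUnion fun b => Set.countable_iUnion fun _ =>
      Set.countable_singleton _
  have h2 : (inferInstance : MeasurableSpace ℝ) = MeasurableSpace.generateFrom
      (⋃ (a : ℚ) (b : ℚ) (_ : a < b), {Set.Ioo (a : ℝ) b}) := by
    rw [← Real.borel_eq_generateFrom_Ioo_rat]
    exact BorelSpace.measurable_eq
  rw [← h2] at h1
  exact h1

/-- There is a subfield `K` of `ℝ` with the following properties. All nonnegative elements of `K`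
are squares in `K`; every field ordering of `K` is archimedean; the set of the cubes of `K` is
definable without parameters in the language of rings, but it is not a Borel subset of `K` (for the
topology induced by that of `ℝ`). -/
theorem result : ∃ K : Subfield ℝ,
    (∀ x : K, 0 ≤ x → ∃ y : K, x = y * y) ∧
    OnlyArchimedeanOrderings K ∧
    @Set.Definable₁ K (∅ : Set K) FirstOrder.Language.ring
      (FirstOrder.Ring.compatibleRingOfRing K).toStructure {x : K | ∃ y : K, x = y ^ 3} ∧
    ¬ @MeasurableSet K (borel K) {x : K | ∃ y : K, x = y ^ 3} := by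
  obtain ⟨I, α, hα, hI⟩ := exists_basis
  choose K hK1 hK2 hK3 using exists_field α hα
  have key : ∃ A, ¬ @MeasurableSet (K A) (borel (K A)) {x : K A | ∃ y : K A, x = y ^ 3} := by
    by_contra hcon
    push Not at hcon
    have h1 : ∀ A, ∃ B : Set ℝ, MeasurableSet B ∧
        (Subtype.val : K A → ℝ) ⁻¹' B = {x : K A | ∃ y : K A, x = y ^ 3} := by
      intro A
      have h2 := hcon A
      rw [← show (borel ℝ).comap (Subtype.val : K A → ℝ) = borel (K A) from borel_comap.symm] at h2
      obtain ⟨B, hB, hB'⟩ := h2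
      exact ⟨B, by rwa [BorelSpace.measurable_eq (α := ℝ)], hB'⟩
    choose B hB hB' using h1
    have h2 : ∀ A, A = {i | α i ^ 3 ∈ B A} := by
      intro A
      ext i
      have h3 : (⟨α i ^ 3, hK2 A i⟩ : K A) ∈ (Subtype.val : K A → ℝ) ⁻¹' (B A) ↔ i ∈ A := by
        rw [hB', ← hK3 A i]
        constructor
        · rintro ⟨y, hy⟩
          have h4 : α i ^ 3 = (y : ℝ) ^ 3 := congrArg Subtype.val hy
          have h5 : α i = y := (Odd.strictMono_pow (by decide : Odd 3)).injective h4
          rw [h5]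
          exact y.2
        · intro h
          exact ⟨⟨α i, h⟩, rfl⟩
      exact h3.symm
    have h3 : Function.Injective (fun A : Set I => (⟨B A, hB A⟩ : {B : Set ℝ // MeasurableSet B})) := by
      intro A A' h
      have h4 : B A = B A' := congrArg Subtype.val h
      rw [h2 A, h2 A', h4]
    have h4 : #(Set I) ≤ #{B : Set ℝ // MeasurableSet B} := Cardinal.mk_le_of_injective h3
    rw [Cardinal.mk_set] at h4
    exact absurd ((h4.trans card_measurable).trans hI) (not_le.2 (Cardinal.cantor _))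
  obtain ⟨A, hA⟩ := key
  refine ⟨K A, ?_, ?_, ?_, hA⟩
  · intro x hx
    obtain ⟨y, hy, hxy⟩ := hK1 A x.1 x.2 hx
    exact ⟨⟨y, hy⟩, Subtype.ext hxy⟩
  · refine only_arch (K A).subtype ?_
    intro x hx
    obtain ⟨y, hy, hxy⟩ := hK1 A x.1 x.2 hx
    exact ⟨⟨y, hy⟩, Subtype.ext hxy⟩
  · let _ := FirstOrder.Ring.compatibleRingOfRing (K A)
    rw [Set.Definable₁, Set.empty_definable_iff]
    refine ⟨FirstOrder.Language.BoundedFormula.ex (n := 0) (FirstOrder.Language.Term.bdEqual
      (FirstOrder.Language.Term.var (Sum.inl 0))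
      (FirstOrder.Language.Term.var (Sum.inr 0) * (FirstOrder.Language.Term.var (Sum.inr 0) *
        FirstOrder.Language.Term.var (Sum.inr 0)))), ?_⟩
    ext x
    simp only [Set.mem_ofPred_eq, FirstOrder.Language.Formula.Realize,
      FirstOrder.Language.BoundedFormula.realize_ex,
      FirstOrder.Language.BoundedFormula.realize_bdEqual,
      FirstOrder.Language.Term.realize_var, FirstOrder.Ring.realize_mul, Sum.elim_inl, Sum.elim_inr]
    refine exists_congr fun y => ?_
    have : (Fin.snoc default y : Fin (0 + 1) → K A) 0 = y := rfl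
    rw [this]
    constructor
    · rintro h
      rw [h]
      ring
    · rintro h
      rw [h]
      ring

end Pool.Agent.Results.MP_37207a_lc.EuclideanCubes
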